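import Pool.Agent.Helper68.EXC.SYM

open Finset MeasureTheory

namespace Pool.Agent.Helper68.EXC.Frm

open Pool.Agent.Helper99.EXC Pool.Agent.Helper99.ERW

/-- the square -/
def Sq : Set (ℝ × ℝ) := Set.Ioc (-Real.pi) Real.pi ×ˢ Set.Ioc (-Real.pi) Real.pi

noncomputable def th (z : Site 2) (w : ℝ × ℝ) : ℝ := z 0 * w.1 + z 1 * w.2

noncomputable def qq' (a : ℝ) (w : ℝ × ℝ) : ℝ :=
  a * (1 - Real.cos w.1) + (1 - a) * (1 - Real.cos w.2)

noncomputable def mm (a : ℝ) (w : ℝ × ℝ) : ℝ :=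
  ((1 - Real.cos w.1) - (1 - Real.cos w.2)) / qq' a w

noncomputable def Fc (B : Finset (Site 2)) (f : Site 2 → ℝ) (w : ℝ × ℝ) : ℝ :=
  ∑ z ∈ B, f z * Real.cos (th z w)

noncomputable def Fs (B : Finset (Site 2)) (f : Site 2 → ℝ) (w : ℝ × ℝ) : ℝ :=
  ∑ z ∈ B, f z * Real.sin (th z w)

lemma th_cont (z : Site 2) : Continuous (th z) := by unfold th; fun_prop

lemma Fc_cont (B : Finset (Site 2)) (f : Site 2 → ℝ) : Continuous (Fc B f) := by
  unfold Fc
  exact continuous_finsetSum _ fun z _ => continuous_const.mul (Real.continuous_cos.comp (th_cont z))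

lemma Fs_cont (B : Finset (Site 2)) (f : Site 2 → ℝ) : Continuous (Fs B f) := by
  unfold Fs
  exact continuous_finsetSum _ fun z _ => continuous_const.mul (Real.continuous_sin.comp (th_cont z))

lemma Sq_sub : Sq ⊆ Set.Icc (-Real.pi) Real.pi ×ˢ Set.Icc (-Real.pi) Real.pi :=
  Set.prod_mono Set.Ioc_subset_Icc_self Set.Ioc_subset_Icc_self

lemma Sq_meas : MeasurableSet Sq := measurableSet_Ioc.prod measurableSet_Ioc

lemma cont_int {h : ℝ × ℝ → ℝ} (hh : Continuous h) : IntegrableOn h Sq :=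
  (hh.continuousOn.integrableOn_compact (isCompact_Icc.prod isCompact_Icc)).mono_set Sq_sub

lemma conv {F : ℝ → ℝ → ℝ} (hF : IntegrableOn (Function.uncurry F) Sq) :
    (∫ ξ in (-Real.pi)..Real.pi, ∫ η in (-Real.pi)..Real.pi, F ξ η) = ∫ w in Sq, F w.1 w.2 := by
  have hpi := Real.pi_pos
  rw [intervalIntegral.integral_of_le (by linarith)]
  simp_rw [intervalIntegral.integral_of_le (show -Real.pi ≤ Real.pi by linarith)]
  rw [Measure.volume_eq_prod] at hF ⊢
  have := setIntegral_prod (fun w : ℝ × ℝ => F w.1 w.2) hF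
  exact this.symm

lemma qq_nonneg {a : ℝ} (ha : 0 < a) (ha1 : a < 1) (w : ℝ × ℝ) : 0 ≤ qq' a w := by
  unfold qq'
  have h1 := Real.cos_le_one w.1
  have h2 := Real.cos_le_one w.2
  have : 0 < 1 - a := by linarith
  have := mul_nonneg ha.le (sub_nonneg.2 h1)
  have := mul_nonneg (show 0 ≤ 1 - a by linarith) (sub_nonneg.2 h2)
  linarith

lemma mm_le {a : ℝ} (ha : 0 < a) (ha1 : a < 1) (w : ℝ × ℝ) : |mm a w| ≤ max (1 / a) (1 / (1 - a)) := by
  have hb : 0 < 1 - a := by linarith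
  have h1 := Real.cos_le_one w.1
  have h2 := Real.cos_le_one w.2
  have hq := qq_nonneg ha ha1 w
  have hM : 0 ≤ max (1 / a) (1 / (1 - a)) := le_max_of_le_left (by positivity)
  unfold mm
  rcases eq_or_lt_of_le hq with h0 | h0
  · rw [← h0, div_zero, abs_zero]; exact hM
  · rw [abs_div, abs_of_pos h0, div_le_iff₀ h0]
    set u := 1 - Real.cos w.1
    set v := 1 - Real.cos w.2
    have hu : 0 ≤ u := sub_nonneg.2 h1
    have hv : 0 ≤ v := sub_nonneg.2 h2
    have e : qq' a w = a * u + (1 - a) * v := rfl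
    rw [e]
    have k1 : 1 ≤ max (1 / a) (1 / (1 - a)) * a := by
      have := mul_le_mul_of_nonneg_right (le_max_left (1 / a) (1 / (1 - a))) ha.le
      rwa [one_div_mul_cancel ha.ne'] at this
    have k2 : 1 ≤ max (1 / a) (1 / (1 - a)) * (1 - a) := by
      have := mul_le_mul_of_nonneg_right (le_max_right (1 / a) (1 / (1 - a))) hb.le
      rwa [one_div_mul_cancel hb.ne'] at this
    have k3 := mul_le_mul_of_nonneg_right k1 hu
    have k4 := mul_le_mul_of_nonneg_right k2 hv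
    rw [abs_le]
    constructor <;> nlinarith

lemma mm_meas (a : ℝ) : Measurable (mm a) := by
  unfold mm qq'; fun_prop

lemma mm_int {a : ℝ} (ha : 0 < a) (ha1 : a < 1) (h : ℝ × ℝ → ℝ) (hh : Continuous h) :
    IntegrableOn (fun w => mm a w * h w) Sq := by
  have h0 : IntegrableOn (fun w => max (1 / a) (1 / (1 - a)) * |h w|) Sq :=
    ((cont_int hh).abs).const_mul _
  refine Integrable.mono' h0 ?_ ?_
  · exact ((mm_meas a).mul hh.measurable).aestronglyMeasurable
  · refine Filter.Eventually.of_forall fun w => ?_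
    rw [Real.norm_eq_abs, abs_mul]
    exact mul_le_mul_of_nonneg_right (mm_le ha ha1 w) (abs_nonneg _)

lemma th_sub (y z : Site 2) (w : ℝ × ℝ) : th (y - z) w = th y w - th z w := by
  unfold th
  simp only [Pi.sub_apply, Int.cast_sub]
  ring

lemma bil (K : ℝ × ℝ → ℝ) (hK : ∀ h : ℝ × ℝ → ℝ, Continuous h → IntegrableOn (fun w => K w * h w) Sq)
    (B : Finset (Site 2)) (f g : Site 2 → ℝ) :
    (∫ w in Sq, K w * (Fc B f w * Fc B g w + Fs B f w * Fs B g w)) =
      ∑ z ∈ B, ∑ y ∈ B, f z * g y * ∫ w in Sq, K w * Real.cos (th (y - z) w) := by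
  have e : ∀ w, K w * (Fc B f w * Fc B g w + Fs B f w * Fs B g w) =
      ∑ z ∈ B, ∑ y ∈ B, f z * g y * (K w * Real.cos (th (y - z) w)) := by
    intro w
    unfold Fc Fs
    rw [Finset.sum_mul_sum, Finset.sum_mul_sum, ← Finset.sum_add_distrib, Finset.mul_sum]
    refine Finset.sum_congr rfl fun z _ => ?_
    rw [← Finset.sum_add_distrib, Finset.mul_sum]
    refine Finset.sum_congr rfl fun y _ => ?_
    rw [th_sub, Real.cos_sub]; ring
  simp_rw [e]
  have hi : ∀ z y : Site 2, IntegrableOn (fun w => f z * g y * (K w * Real.cos (th (y - z) w))) Sq :=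
    fun z y => (hK _ (Real.continuous_cos.comp (th_cont _))).const_mul _
  rw [integral_finsetSum _ fun z _ => integrable_finsetSum _ fun y _ => hi z y]
  refine Finset.sum_congr rfl fun z _ => ?_
  rw [integral_finsetSum _ fun y _ => hi z y]
  refine Finset.sum_congr rfl fun y _ => ?_
  rw [integral_const_mul]

lemma int_sin0 (n : ℤ) : (∫ η in (-Real.pi)..Real.pi, Real.sin (n * η)) = 0 := by
  have h := intervalIntegral.integral_comp_neg (a := -Real.pi) (b := Real.pi)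
    (fun η => Real.sin (n * η))
  rw [neg_neg] at h
  have h2 : (∫ η in (-Real.pi)..Real.pi, Real.sin (n * (-η))) =
      - ∫ η in (-Real.pi)..Real.pi, Real.sin (n * η) := by
    rw [← intervalIntegral.integral_neg]
    congr 1
    ext η
    rw [mul_neg, Real.sin_neg]
  rw [h2] at h
  linarith

lemma orth (u : Site 2) : (∫ w in Sq, (1 : ℝ) * Real.cos (th u w)) =
    if u = 0 then 4 * Real.pi ^ 2 else 0 := by
  have hF : IntegrableOn (Function.uncurry fun ξ η : ℝ => Real.cos (th u (ξ, η))) Sq :=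
    cont_int (Real.continuous_cos.comp (th_cont u))
  have h1 := conv hF
  simp only [one_mul]
  have e0 : (∫ w in Sq, Real.cos (th u w)) = ∫ w in Sq, Real.cos (th u (w.1, w.2)) := rfl
  rw [e0, ← h1]
  have e1 : ∀ ξ : ℝ, (∫ η in (-Real.pi)..Real.pi, Real.cos (th u (ξ, η))) =
      Real.cos (u 0 * ξ) * (if u 1 = 0 then 2 * Real.pi else 0) := by
    intro ξ
    have i1 : IntervalIntegrable (fun η => Real.cos (u 0 * ξ) * Real.cos (u 1 * η)) volume (-Real.pi) Real.pi :=
      (by fun_prop : Continuous fun η => Real.cos (u 0 * ξ) * Real.cos (u 1 * η)).intervalIntegrable _ _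
    have i2 : IntervalIntegrable (fun η => Real.sin (u 0 * ξ) * Real.sin (u 1 * η)) volume (-Real.pi) Real.pi :=
      (by fun_prop : Continuous fun η => Real.sin (u 0 * ξ) * Real.sin (u 1 * η)).intervalIntegrable _ _
    have : (fun η => Real.cos (th u (ξ, η))) =
        fun η => Real.cos (u 0 * ξ) * Real.cos (u 1 * η) - Real.sin (u 0 * ξ) * Real.sin (u 1 * η) := by
      ext η
      unfold th
      rw [Real.cos_add]
    rw [this, intervalIntegral.integral_sub i1 i2, intervalIntegral.integral_const_mul,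
      intervalIntegral.integral_const_mul, Sym.int_cos, int_sin0]
    ring
  simp_rw [e1]
  rw [intervalIntegral.integral_mul_const, Sym.int_cos]
  by_cases h0 : u 0 = 0
  · by_cases h2 : u 1 = 0
    · have hu : u = 0 := by ext i; fin_cases i <;> simp [h0, h2]
      rw [if_pos h0, if_pos h2, if_pos hu]; ring
    · have hu : u ≠ 0 := fun h => h2 (by rw [h]; rfl)
      rw [if_pos h0, if_neg h2, if_neg hu]; ring
  · have hu : u ≠ 0 := fun h => h0 (by rw [h]; rfl)
    rw [if_neg h0, if_neg hu]; ring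

lemma parseval (B : Finset (Site 2)) (f : Site 2 → ℝ) :
    (∫ w in Sq, (Fc B f w ^ 2 + Fs B f w ^ 2)) = 4 * Real.pi ^ 2 * ∑ z ∈ B, f z ^ 2 := by
  have h := bil (fun _ => (1 : ℝ)) (fun h hh => by simpa using cont_int hh) B f f
  have e : (∫ w in Sq, (Fc B f w ^ 2 + Fs B f w ^ 2)) =
      ∫ w in Sq, (1 : ℝ) * (Fc B f w * Fc B f w + Fs B f w * Fs B f w) := by
    congr 1
    ext w
    ring
  rw [e, h, Finset.mul_sum]
  refine Finset.sum_congr rfl fun z hz => ?_
  rw [Finset.sum_eq_single z]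
  · rw [orth, sub_self, if_pos rfl]; ring
  · intro y _ hy
    rw [orth, if_neg (sub_ne_zero.2 hy), mul_zero]
  · intro h; exact absurd hz h

lemma df_eq {a : ℝ} (hS : SYM_stmt) (ha : 0 < a) (ha1 : a < 1) (u : Site 2) :
    Df (ph a) u = 1 / (4 * Real.pi ^ 2) * ∫ w in Sq, mm a w * Real.cos (th u w) := by
  have hi : ∀ x y : ℤ, IntegrableOn (fun w : ℝ × ℝ => (1 - Real.cos (x * w.1 + y * w.2)) / qq' a w) Sq := by
    intro x y
    have := Sym.bdd ha ha1 x y
    rw [Set.uIoc_of_le (by linarith [Real.pi_pos])] at this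
    exact this
  have hp : ∀ x y : ℤ, pot a x y = 1 / (4 * Real.pi ^ 2) *
      ∫ w in Sq, (1 - Real.cos (x * w.1 + y * w.2)) / qq' a w := by
    intro x y
    rw [(hS a ha ha1).2 x y]
    congr 1
    exact conv (F := fun ξ η => (1 - Real.cos (x * ξ + y * η)) /
      (a * (1 - Real.cos ξ) + (1 - a) * (1 - Real.cos η))) (hi x y)
  have v0t : (u + vec ((0 : Fin 2), true) : Site 2) 0 = u 0 + 1 ∧ (u + vec ((0 : Fin 2), true) : Site 2) 1 = u 1 := by
    constructor <;> simp [vec]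
  have v0f : (u + vec ((0 : Fin 2), false) : Site 2) 0 = u 0 - 1 ∧ (u + vec ((0 : Fin 2), false) : Site 2) 1 = u 1 := by
    constructor <;> simp [vec, sub_eq_add_neg]
  have v1t : (u + vec ((1 : Fin 2), true) : Site 2) 0 = u 0 ∧ (u + vec ((1 : Fin 2), true) : Site 2) 1 = u 1 + 1 := by
    constructor <;> simp [vec]
  have v1f : (u + vec ((1 : Fin 2), false) : Site 2) 0 = u 0 ∧ (u + vec ((1 : Fin 2), false) : Site 2) 1 = u 1 - 1 := by
    constructor <;> simp [vec, sub_eq_add_neg]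
  unfold Df secondDiff ph
  rw [v0t.1, v0t.2, v0f.1, v0f.2, v1t.1, v1t.2, v1f.1, v1f.2, hp, hp, hp, hp, hp]
  have key : (∫ w in Sq, mm a w * Real.cos (th u w)) =
      ((∫ w in Sq, (1 - Real.cos (((u 0 + 1 : ℤ) : ℝ) * w.1 + u 1 * w.2)) / qq' a w) +
      (∫ w in Sq, (1 - Real.cos (((u 0 - 1 : ℤ) : ℝ) * w.1 + u 1 * w.2)) / qq' a w) -
      ((∫ w in Sq, (1 - Real.cos ((u 0 : ℝ) * w.1 + ((u 1 + 1 : ℤ) : ℝ) * w.2)) / qq' a w) +
      (∫ w in Sq, (1 - Real.cos ((u 0 : ℝ) * w.1 + ((u 1 - 1 : ℤ) : ℝ) * w.2)) / qq' a w))) / 2 := by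
    rw [← integral_add (hi _ _) (hi _ _), ← integral_add (hi _ _) (hi _ _), ← integral_sub,
      ← integral_div]
    · congr 1
      ext w
      unfold mm th
      push_cast
      have c1 : ((u 0 : ℝ) + 1) * w.1 + u 1 * w.2 = (u 0 * w.1 + u 1 * w.2) + w.1 := by ring
      have c2 : ((u 0 : ℝ) - 1) * w.1 + u 1 * w.2 = (u 0 * w.1 + u 1 * w.2) - w.1 := by ring
      have c3 : (u 0 : ℝ) * w.1 + ((u 1 : ℝ) + 1) * w.2 = (u 0 * w.1 + u 1 * w.2) + w.2 := by ring
      have c4 : (u 0 : ℝ) * w.1 + ((u 1 : ℝ) - 1) * w.2 = (u 0 * w.1 + u 1 * w.2) - w.2 := by ring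
      rw [c1, c2, c3, c4]
      generalize (u 0 : ℝ) * w.1 + u 1 * w.2 = T
      rw [Real.cos_add T w.1, Real.cos_sub T w.1, Real.cos_add T w.2, Real.cos_sub T w.2]
      ring
    · exact (hi _ _).add (hi _ _)
    · exact (hi _ _).add (hi _ _)
  rw [key]
  ring

lemma young {t A B C D : ℝ} (ht : 0 < t) :
    |A * C + B * D| ≤ t / 2 * (A ^ 2 + B ^ 2) + 1 / (2 * t) * (C ^ 2 + D ^ 2) := by
  have h : 0 ≤ 1 / (2 * t) := by positivity
  have e : t / 2 * (A ^ 2 + B ^ 2) + 1 / (2 * t) * (C ^ 2 + D ^ 2) =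
      1 / (2 * t) * ((t * A) ^ 2 + (t * B) ^ 2 + C ^ 2 + D ^ 2) := by
    field_simp
    ring
  rw [e, abs_le]
  have e2 : A * C + B * D = 1 / (2 * t) * (2 * (t * A) * C + 2 * (t * B) * D) := by
    field_simp
  rw [e2]
  constructor
  · rw [neg_le_iff_add_nonneg, ← mul_add]
    apply mul_nonneg h
    nlinarith [sq_nonneg (t * A + C), sq_nonneg (t * B + D)]
  · apply mul_le_mul_of_nonneg_left _ h
    nlinarith [sq_nonneg (t * A - C), sq_nonneg (t * B - D)]

end Pool.Agent.Helper68.EXC.Frm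

namespace Pool.Agent.Helper68.EXC

open Pool.Agent.Helper99.EXC Pool.Agent.Helper99.ERW

theorem FRM (_hRHO : RHO_stmt) (hSYM : SYM_stmt) : FRM_stmt := by
  intro a ha ha1
  set M := max (1 / a) (1 / (1 - a)) with hM
  have hM0 : 0 ≤ M := le_max_of_le_left (by positivity)
  refine ⟨M, hM0, ?_⟩
  intro B f g
  have hpi := Real.pi_pos
  set P := ∑ z ∈ B, f z ^ 2 with hP
  set Q := ∑ y ∈ B, g y ^ 2 with hQ
  have hP0 : 0 ≤ P := Finset.sum_nonneg fun _ _ => sq_nonneg _
  have hQ0 : 0 ≤ Q := Finset.sum_nonneg fun _ _ => sq_nonneg _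
  have eq1 : ∑ z ∈ B, ∑ y ∈ B, f z * Df (ph a) (y - z) * g y =
      1 / (4 * Real.pi ^ 2) * ∫ w in Frm.Sq, Frm.mm a w *
        (Frm.Fc B f w * Frm.Fc B g w + Frm.Fs B f w * Frm.Fs B g w) := by
    rw [Frm.bil (Frm.mm a) (Frm.mm_int ha ha1) B f g, Finset.mul_sum]
    refine Finset.sum_congr rfl fun z _ => ?_
    rw [Finset.mul_sum]
    refine Finset.sum_congr rfl fun y _ => ?_
    rw [Frm.df_eq hSYM ha ha1]; ring
  have bound : ∀ t : ℝ, 0 < t → |∑ z ∈ B, ∑ y ∈ B, f z * Df (ph a) (y - z) * g y| ≤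
      M * (t / 2 * P + 1 / (2 * t) * Q) := by
    intro t ht
    rw [eq1, abs_mul, abs_of_pos (by positivity : 0 < 1 / (4 * Real.pi ^ 2))]
    have i1 : IntegrableOn (fun w => Frm.Fc B f w ^ 2 + Frm.Fs B f w ^ 2) Frm.Sq :=
      Frm.cont_int (((Frm.Fc_cont B f).pow 2).add ((Frm.Fs_cont B f).pow 2))
    have i2 : IntegrableOn (fun w => Frm.Fc B g w ^ 2 + Frm.Fs B g w ^ 2) Frm.Sq :=
      Frm.cont_int (((Frm.Fc_cont B g).pow 2).add ((Frm.Fs_cont B g).pow 2))
    have h1 : |∫ w in Frm.Sq, Frm.mm a w *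
        (Frm.Fc B f w * Frm.Fc B g w + Frm.Fs B f w * Frm.Fs B g w)| ≤
        ∫ w in Frm.Sq, M * (t / 2 * (Frm.Fc B f w ^ 2 + Frm.Fs B f w ^ 2) +
          1 / (2 * t) * (Frm.Fc B g w ^ 2 + Frm.Fs B g w ^ 2)) := by
      rw [← Real.norm_eq_abs]
      apply norm_integral_le_of_norm_le
      · exact ((i1.const_mul _).add (i2.const_mul _)).const_mul _
      · refine Filter.Eventually.of_forall fun w => ?_
        rw [Real.norm_eq_abs, abs_mul]
        exact mul_le_mul (Frm.mm_le ha ha1 w) (Frm.young ht) (abs_nonneg _) hM0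
    have h2 : (∫ w in Frm.Sq, M * (t / 2 * (Frm.Fc B f w ^ 2 + Frm.Fs B f w ^ 2) +
          1 / (2 * t) * (Frm.Fc B g w ^ 2 + Frm.Fs B g w ^ 2))) =
        M * (t / 2 * (4 * Real.pi ^ 2 * P) + 1 / (2 * t) * (4 * Real.pi ^ 2 * Q)) := by
      rw [integral_const_mul, integral_add (i1.const_mul _) (i2.const_mul _), integral_const_mul,
        integral_const_mul, Frm.parseval, Frm.parseval]
    rw [h2] at h1
    calc 1 / (4 * Real.pi ^ 2) * |∫ w in Frm.Sq, Frm.mm a w *
        (Frm.Fc B f w * Frm.Fc B g w + Frm.Fs B f w * Frm.Fs B g w)| ≤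
        1 / (4 * Real.pi ^ 2) * (M * (t / 2 * (4 * Real.pi ^ 2 * P) + 1 / (2 * t) * (4 * Real.pi ^ 2 * Q))) :=
          mul_le_mul_of_nonneg_left h1 (by positivity)
      _ = M * (t / 2 * P + 1 / (2 * t) * Q) := by field_simp
  rcases eq_or_lt_of_le hP0 with h0 | h0
  · -- f = 0 on B
    have hf : ∀ z ∈ B, f z = 0 := by
      intro z hz
      have := (Finset.sum_eq_zero_iff_of_nonneg (fun z _ => sq_nonneg (f z))).1 h0.symm z hz
      exact pow_eq_zero_iff (two_ne_zero) |>.1 this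
    have : ∑ z ∈ B, ∑ y ∈ B, f z * Df (ph a) (y - z) * g y = 0 := by
      apply Finset.sum_eq_zero
      intro z hz
      apply Finset.sum_eq_zero
      intro y _
      rw [hf z hz]; ring
    rw [this, abs_zero]
    positivity
  rcases eq_or_lt_of_le hQ0 with h1 | h1
  · have hg : ∀ z ∈ B, g z = 0 := by
      intro z hz
      have := (Finset.sum_eq_zero_iff_of_nonneg (fun z _ => sq_nonneg (g z))).1 h1.symm z hz
      exact pow_eq_zero_iff (two_ne_zero) |>.1 this
    have : ∑ z ∈ B, ∑ y ∈ B, f z * Df (ph a) (y - z) * g y = 0 := by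
      apply Finset.sum_eq_zero
      intro z _
      apply Finset.sum_eq_zero
      intro y hy
      rw [hg y hy]; ring
    rw [this, abs_zero]
    positivity
  have sp := Real.sqrt_pos.2 h0
  have sq := Real.sqrt_pos.2 h1
  refine (bound (Real.sqrt Q / Real.sqrt P) (by positivity)).trans (le_of_eq ?_)
  have eP : P = Real.sqrt P * Real.sqrt P := (Real.mul_self_sqrt hP0).symm
  have eQ : Q = Real.sqrt Q * Real.sqrt Q := (Real.mul_self_sqrt hQ0).symm
  have e : Real.sqrt Q / Real.sqrt P / 2 * P + 1 / (2 * (Real.sqrt Q / Real.sqrt P)) * Q =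
      Real.sqrt P * Real.sqrt Q := by
    generalize Real.sqrt P = s at *
    generalize Real.sqrt Q = r at *
    rw [eP, eQ]
    field_simp
    ring
  rw [e]; ring

end Pool.Agent.Helper68.EXC
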