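import Pool.Agent.Helper99.EXC.GoalsK

open Finset MeasureTheory

namespace Pool.Agent.Helper68.EXC.Sym

open Pool.Agent.Helper99.EXC

/-- uniqueness of bounded solutions -/
lemma bounded_zero {l b M : ℝ} (hl : 0 < l) (hb : 0 < b) (d : ℤ → ℝ) (hM : ∀ n, |d n| ≤ M)
    (h : ∀ n, (l + b) * d n = b / 2 * (d (n + 1) + d (n - 1))) (n : ℤ) : d n = 0 := by
  have hM0 : 0 ≤ M := (abs_nonneg _).trans (hM 0)
  set r : ℝ := b / (l + b) with hr
  have hlb : 0 < l + b := by linarith
  have hr0 : 0 ≤ r := by positivity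
  have hr1 : r < 1 := by rw [hr, div_lt_one hlb]; linarith
  have step : ∀ k : ℕ, ∀ n, |d n| ≤ r ^ k * M := by
    intro k
    induction k with
    | zero => intro n; simpa using hM n
    | succ k ih =>
      intro n
      have e : d n = r * ((d (n + 1) + d (n - 1)) / 2) := by
        have := h n
        rw [hr]
        field_simp
        linarith
      rw [e, abs_mul, abs_of_nonneg hr0, pow_succ]
      have : |(d (n + 1) + d (n - 1)) / 2| ≤ r ^ k * M := by
        rw [abs_div, abs_of_pos (by norm_num : (0 : ℝ) < 2)]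
        have h1 := ih (n + 1)
        have h2 := ih (n - 1)
        have h3 := abs_add_le (d (n + 1)) (d (n - 1))
        linarith
      calc r * |(d (n + 1) + d (n - 1)) / 2| ≤ r * (r ^ k * M) :=
            mul_le_mul_of_nonneg_left this hr0
        _ = r ^ k * r * M := by ring
  have lim : Filter.Tendsto (fun k : ℕ => r ^ k * M) Filter.atTop (nhds 0) := by
    have := (tendsto_pow_atTop_nhds_zero_of_lt_one hr0 hr1).mul_const M
    simpa using this
  have : |d n| ≤ 0 := ge_of_tendsto' lim fun k => step k n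
  exact abs_nonpos_iff.1 this

lemma int_cos (n : ℤ) : (∫ η in (-Real.pi)..Real.pi, Real.cos (n * η)) = if n = 0 then 2 * Real.pi else 0 := by
  split_ifs with h
  · subst h; simp; ring
  · have hn : (n : ℝ) ≠ 0 := by exact_mod_cast h
    rw [intervalIntegral.integral_comp_mul_left (fun x => Real.cos x) hn, integral_cos]
    have : Real.sin (n * Real.pi) = 0 := Real.sin_int_mul_pi n
    simp [this]

lemma q_pos {l b : ℝ} (hl : 0 < l) (hb : 0 < b) (η : ℝ) : l ≤ l + b * (1 - Real.cos η) := by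
  have := Real.cos_le_one η
  nlinarith

lemma q_cont {l b : ℝ} (hl : 0 < l) (hb : 0 < b) (f : ℝ → ℝ) (hf : Continuous f) :
    Continuous fun η => f η / (l + b * (1 - Real.cos η)) := by
  apply hf.div (by fun_prop)
  intro η
  have := q_pos hl hb η
  linarith

/-- the one dimensional Green function -/
lemma green {a ξ : ℝ} (h : RHO_stmt) (ha : 0 < a) (ha1 : a < 1) (hl : 0 < lam a ξ) (n : ℤ) :
    (∫ η in (-Real.pi)..Real.pi, Real.cos (n * η) / (lam a ξ + (1 - a) * (1 - Real.cos η))) =
      2 * Real.pi * (rho a ξ ^ n.natAbs / dd a ξ) := by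
  obtain ⟨-, -, -, -, hD0, hr0, hr1, hq1, hq2, -⟩ := h a ha ha1
  set l := lam a ξ with hldef
  set b := 1 - a with hbdef
  have hb : 0 < b := by rw [hbdef]; linarith
  set D := dd a ξ with hDdef
  set r := rho a ξ with hrdef
  have hD : 0 < D := by
    rw [hDdef]; unfold dd
    apply Real.sqrt_pos.2
    have : 0 < lam a ξ := hl
    positivity
  have e1 : b / 2 * (r ^ 2 + 1) = (l + b) * r := hq1 ξ
  have e2 : b / 2 * (1 - r ^ 2) = D * r := hq2 ξ
  have hrp : 0 < r := hr0 ξ
  have hrl : r ≤ 1 := hr1 ξ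
  have hpi := Real.pi_pos
  -- the two solutions
  let I : ℤ → ℝ := fun n => ∫ η in (-Real.pi)..Real.pi, Real.cos (n * η) / (l + b * (1 - Real.cos η))
  let R : ℤ → ℝ := fun n => 2 * Real.pi * (r ^ n.natAbs / D)
  have hint : ∀ n : ℤ, IntervalIntegrable (fun η => Real.cos (n * η) / (l + b * (1 - Real.cos η)))
      volume (-Real.pi) Real.pi := fun n =>
    (q_cont hl hb _ (by fun_prop)).intervalIntegrable _ _
  have hI : ∀ n, (l + b) * I n - b / 2 * (I (n + 1) + I (n - 1)) = if n = 0 then 2 * Real.pi else 0 := by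
    intro n
    rw [← int_cos n]
    simp only [I]
    rw [← intervalIntegral.integral_const_mul, ← intervalIntegral.integral_add (hint _) (hint _),
      ← intervalIntegral.integral_const_mul, ← intervalIntegral.integral_sub]
    · apply intervalIntegral.integral_congr
      intro η _
      simp only
      have hq : l + b * (1 - Real.cos η) ≠ 0 := by
        have := q_pos hl hb η; linarith
      have c1 : Real.cos (((n + 1 : ℤ) : ℝ) * η) + Real.cos (((n - 1 : ℤ) : ℝ) * η) =
          2 * Real.cos (n * η) * Real.cos η := by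
        push_cast
        rw [add_mul, sub_mul, one_mul, Real.cos_add, Real.cos_sub]; ring
      rw [← add_div, c1]
      field_simp
      ring
    · exact (hint n).const_mul _
    · exact ((hint _).add (hint _)).const_mul _
  have hR : ∀ n, (l + b) * R n - b / 2 * (R (n + 1) + R (n - 1)) = if n = 0 then 2 * Real.pi else 0 := by
    intro n
    simp only [R]
    have key : ∀ m : ℕ, (l + b) * (r ^ (m + 1) / D) = b / 2 * (r ^ (m + 2) / D + r ^ m / D) := by
      intro m
      have : (l + b) * r ^ (m + 1) = b / 2 * (r ^ (m + 2) + r ^ m) := by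
        have : r ^ (m + 2) + r ^ m = r ^ m * (r ^ 2 + 1) := by ring
        rw [this]
        calc (l + b) * r ^ (m + 1) = r ^ m * ((l + b) * r) := by ring
          _ = _ := by rw [← e1]; ring
      rw [← add_div, mul_div_assoc', mul_div_assoc', this]
    split_ifs with h0
    · subst h0
      have : (l + b) - b * r = D := by
        have h1 : r * ((l + b) - b * r) = r * D := by
          calc r * ((l + b) - b * r) = (l + b) * r - b * r ^ 2 := by ring
            _ = r * D := by rw [← e1, mul_comm r D, ← e2]; ring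
        exact mul_left_cancel₀ hrp.ne' h1
      simp only [Int.natAbs_zero, zero_add, zero_sub, Int.natAbs_neg, Int.natAbs_one, pow_zero, pow_one]
      field_simp
      linear_combination 2 * this
    · rcases lt_or_gt_of_ne h0 with hneg | hpos
      · obtain ⟨m, rfl⟩ : ∃ m : ℕ, n = -((m : ℤ) + 1) := ⟨(-n - 1).toNat, by omega⟩
        have a1 : (-((m : ℤ) + 1)).natAbs = m + 1 := by omega
        have a2 : (-((m : ℤ) + 1) + 1).natAbs = m := by omega
        have a3 : (-((m : ℤ) + 1) - 1).natAbs = m + 2 := by omega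
        rw [a1, a2, a3]
        linear_combination 2 * Real.pi * key m
      · obtain ⟨m, rfl⟩ : ∃ m : ℕ, n = (m : ℤ) + 1 := ⟨(n - 1).toNat, by omega⟩
        have a1 : ((m : ℤ) + 1).natAbs = m + 1 := by omega
        have a2 : ((m : ℤ) + 1 + 1).natAbs = m + 2 := by omega
        have a3 : ((m : ℤ) + 1 - 1).natAbs = m := by omega
        rw [a1, a2, a3]
        linear_combination 2 * Real.pi * key m
  have hIb : ∀ n, |I n| ≤ 2 * Real.pi / l := by
    intro n
    have h1 : ∀ η ∈ Set.uIoc (-Real.pi) Real.pi,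
        ‖Real.cos (n * η) / (l + b * (1 - Real.cos η))‖ ≤ 1 / l := by
      intro η _
      have hq := q_pos hl hb η
      rw [Real.norm_eq_abs, abs_div, abs_of_pos (show 0 < l + b * (1 - Real.cos η) by linarith)]
      exact div_le_div₀ zero_le_one (Real.abs_cos_le_one _) hl hq
    have h2 := intervalIntegral.norm_integral_le_of_norm_le_const h1
    rw [Real.norm_eq_abs] at h2
    have e : |Real.pi - -Real.pi| = 2 * Real.pi := by
      rw [abs_of_pos (by linarith)]; ring
    rw [e] at h2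
    calc |I n| ≤ 1 / l * (2 * Real.pi) := h2
      _ = 2 * Real.pi / l := by ring
  have hRb : ∀ n, |R n| ≤ 2 * Real.pi / D := by
    intro n
    simp only [R]
    have h1 : r ^ n.natAbs ≤ 1 := pow_le_one₀ hrp.le hrl
    rw [abs_of_nonneg (by positivity), mul_div_assoc']
    apply div_le_div_of_nonneg_right _ hD.le
    nlinarith
  have := bounded_zero hl hb (fun n => I n - R n) (M := 2 * Real.pi / l + 2 * Real.pi / D)
    (fun n => (abs_sub (I n) (R n)).trans (add_le_add (hIb n) (hRb n)))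
    (fun n => by
      have h1 := hI n
      have h2 := hR n
      linear_combination h1 - h2) n
  simp only [I, R] at this
  linarith

lemma int_sin {l b : ℝ} (n : ℤ) :
    (∫ η in (-Real.pi)..Real.pi, Real.sin (n * η) / (l + b * (1 - Real.cos η))) = 0 := by
  have h := intervalIntegral.integral_comp_neg (a := -Real.pi) (b := Real.pi)
    (fun η => Real.sin (n * η) / (l + b * (1 - Real.cos η)))
  rw [neg_neg] at h
  have h2 : (∫ η in (-Real.pi)..Real.pi, Real.sin (n * (-η)) / (l + b * (1 - Real.cos (-η)))) =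
      - ∫ η in (-Real.pi)..Real.pi, Real.sin (n * η) / (l + b * (1 - Real.cos η)) := by
    rw [← intervalIntegral.integral_neg]
    congr 1
    ext η
    rw [Real.cos_neg, mul_neg, Real.sin_neg, neg_div]
  rw [h2] at h
  linarith

lemma inner {a ξ : ℝ} (h : RHO_stmt) (ha : 0 < a) (ha1 : a < 1) (hl : 0 < lam a ξ) (x y : ℤ) :
    (∫ η in (-Real.pi)..Real.pi, (1 - Real.cos (x * ξ + y * η)) /
      (a * (1 - Real.cos ξ) + (1 - a) * (1 - Real.cos η))) =
      2 * Real.pi * ((1 - rho a ξ ^ y.natAbs * Real.cos (x * ξ)) / dd a ξ) := by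
  have hb : 0 < 1 - a := by linarith
  have e0 : a * (1 - Real.cos ξ) = lam a ξ := rfl
  rw [e0]
  have g0 := green h ha ha1 hl 0
  have g1 := green h ha ha1 hl y
  have s1 := int_sin (l := lam a ξ) (b := 1 - a) y
  have i0 : IntervalIntegrable (fun η => Real.cos (((0 : ℤ) : ℝ) * η) / (lam a ξ + (1 - a) * (1 - Real.cos η)))
      volume (-Real.pi) Real.pi := (q_cont hl hb _ (by fun_prop)).intervalIntegrable _ _
  have i1 : IntervalIntegrable (fun η => Real.cos (y * η) / (lam a ξ + (1 - a) * (1 - Real.cos η)))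
      volume (-Real.pi) Real.pi := (q_cont hl hb _ (by fun_prop)).intervalIntegrable _ _
  have i2 : IntervalIntegrable (fun η => Real.sin (y * η) / (lam a ξ + (1 - a) * (1 - Real.cos η)))
      volume (-Real.pi) Real.pi := (q_cont hl hb _ (by fun_prop)).intervalIntegrable _ _
  have e1 : (∫ η in (-Real.pi)..Real.pi, (1 - Real.cos (x * ξ + y * η)) /
      (lam a ξ + (1 - a) * (1 - Real.cos η))) =
      (∫ η in (-Real.pi)..Real.pi, Real.cos (((0 : ℤ) : ℝ) * η) / (lam a ξ + (1 - a) * (1 - Real.cos η))) -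
      (Real.cos (x * ξ) * ∫ η in (-Real.pi)..Real.pi, Real.cos (y * η) /
        (lam a ξ + (1 - a) * (1 - Real.cos η))) +
      Real.sin (x * ξ) * ∫ η in (-Real.pi)..Real.pi, Real.sin (y * η) /
        (lam a ξ + (1 - a) * (1 - Real.cos η)) := by
    rw [← intervalIntegral.integral_const_mul, ← intervalIntegral.integral_const_mul,
      ← intervalIntegral.integral_sub i0 (i1.const_mul _),
      ← intervalIntegral.integral_add (i0.sub (i1.const_mul _)) (i2.const_mul _)]
    congr 1
    ext η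
    rw [Real.cos_add, Int.cast_zero, zero_mul, Real.cos_zero]
    ring
  rw [e1, g0, g1, s1]
  simp only [Int.natAbs_zero, pow_zero]
  ring

lemma lam_pos {a ξ : ℝ} (ha : 0 < a) (hξ : |ξ| ≤ Real.pi) (h0 : ξ ≠ 0) : 0 < lam a ξ := by
  unfold lam
  have h1 := Real.cos_le_one_sub_mul_cos_sq hξ
  have h2 : 0 < 2 / Real.pi ^ 2 * ξ ^ 2 := by
    have := Real.pi_pos
    positivity
  apply mul_pos ha; linarith

lemma dbl {a : ℝ} (h : RHO_stmt) (ha : 0 < a) (ha1 : a < 1) (x y : ℤ) :
    pot a x y = 1 / (4 * Real.pi ^ 2) * ∫ ξ in (-Real.pi)..Real.pi,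
    ∫ η in (-Real.pi)..Real.pi, (1 - Real.cos (x * ξ + y * η)) /
      (a * (1 - Real.cos ξ) + (1 - a) * (1 - Real.cos η)) := by
  have hpi := Real.pi_pos
  have e : (∫ ξ in (-Real.pi)..Real.pi,
    ∫ η in (-Real.pi)..Real.pi, (1 - Real.cos (x * ξ + y * η)) /
      (a * (1 - Real.cos ξ) + (1 - a) * (1 - Real.cos η))) =
      ∫ ξ in (-Real.pi)..Real.pi, 2 * Real.pi * ((1 - rho a ξ ^ y.natAbs * Real.cos (x * ξ)) / dd a ξ) := by
    apply intervalIntegral.integral_congr_ae
    have h0 : ∀ᵐ ξ : ℝ, ξ ≠ 0 := by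
      have := measure_singleton (μ := (volume : Measure ℝ)) 0
      exact compl_mem_ae_iff.2 this
    filter_upwards [h0] with ξ hξ hmem
    rw [Set.uIoc_of_le (by linarith)] at hmem
    exact inner h ha ha1 (lam_pos ha (abs_le.2 ⟨hmem.1.le, hmem.2⟩) hξ) x y
  rw [e, intervalIntegral.integral_const_mul]
  unfold pot
  field_simp
  ring

lemma bdd {a : ℝ} (ha : 0 < a) (ha1 : a < 1) (x y : ℤ) :
    IntegrableOn (Function.uncurry fun ξ η : ℝ => (1 - Real.cos (x * ξ + y * η)) /
      (a * (1 - Real.cos ξ) + (1 - a) * (1 - Real.cos η)))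
      (Set.uIoc (-Real.pi) Real.pi ×ˢ Set.uIoc (-Real.pi) Real.pi) := by
  have hpi := Real.pi_pos
  have hb : 0 < 1 - a := by linarith
  set m := min a (1 - a) with hm
  have hm0 : 0 < m := lt_min ha hb
  set K : ℝ := ((x : ℝ) ^ 2 + y ^ 2) * (Real.pi ^ 2 / (4 * m)) with hK
  have hK0 : 0 ≤ K := by positivity
  rw [Set.uIoc_of_le (by linarith)]
  apply Measure.integrableOn_of_bounded (M := K)
  · rw [Measure.volume_eq_prod, Measure.prod_prod]
    exact ENNReal.mul_ne_top (by simp) (by simp)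
  · apply Measurable.aestronglyMeasurable
    have : Measurable fun z : ℝ × ℝ => (1 - Real.cos (x * z.1 + y * z.2)) /
      (a * (1 - Real.cos z.1) + (1 - a) * (1 - Real.cos z.2)) := by fun_prop
    exact this
  · rw [ae_restrict_iff' (measurableSet_Ioc.prod measurableSet_Ioc)]
    refine Filter.Eventually.of_forall ?_
    rintro ⟨ξ, η⟩ ⟨h1, h2⟩
    simp only at h1 h2
    have hξ := Real.cos_le_one_sub_mul_cos_sq (abs_le.2 ⟨h1.1.le, h1.2⟩)
    have hη := Real.cos_le_one_sub_mul_cos_sq (abs_le.2 ⟨h2.1.le, h2.2⟩)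
    simp only [Function.uncurry, Real.norm_eq_abs]
    set q := a * (1 - Real.cos ξ) + (1 - a) * (1 - Real.cos η) with hq
    have hqlow : m * (2 / Real.pi ^ 2) * (ξ ^ 2 + η ^ 2) ≤ q := by
      have c1 : 2 / Real.pi ^ 2 * ξ ^ 2 ≤ 1 - Real.cos ξ := by linarith
      have c2 : 2 / Real.pi ^ 2 * η ^ 2 ≤ 1 - Real.cos η := by linarith
      have c3 : 0 ≤ 1 - Real.cos ξ := by linarith [Real.cos_le_one ξ]
      have c4 : 0 ≤ 1 - Real.cos η := by linarith [Real.cos_le_one η]
      have d1 : m * (2 / Real.pi ^ 2 * ξ ^ 2) ≤ a * (1 - Real.cos ξ) :=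
        mul_le_mul (min_le_left _ _) c1 (by positivity) ha.le
      have d2 : m * (2 / Real.pi ^ 2 * η ^ 2) ≤ (1 - a) * (1 - Real.cos η) :=
        mul_le_mul (min_le_right _ _) c2 (by positivity) hb.le
      rw [hq]
      calc m * (2 / Real.pi ^ 2) * (ξ ^ 2 + η ^ 2) =
          m * (2 / Real.pi ^ 2 * ξ ^ 2) + m * (2 / Real.pi ^ 2 * η ^ 2) := by ring
        _ ≤ _ := add_le_add d1 d2
    have hnum : |1 - Real.cos (x * ξ + y * η)| ≤ ((x : ℝ) ^ 2 + y ^ 2) * (ξ ^ 2 + η ^ 2) / 2 := by
      rw [abs_of_nonneg (by linarith [Real.cos_le_one (x * ξ + y * η)])]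
      have := Real.one_sub_sq_div_two_le_cos (x := x * ξ + y * η)
      have cs : (x * ξ + y * η) ^ 2 ≤ ((x : ℝ) ^ 2 + y ^ 2) * (ξ ^ 2 + η ^ 2) := by
        nlinarith [sq_nonneg ((x : ℝ) * η - y * ξ)]
      linarith
    rcases eq_or_ne q 0 with h0 | h0
    · rw [h0, div_zero, abs_zero]; exact hK0
    · have hq0 : 0 < q := by
        have : 0 ≤ q := le_trans (by positivity) hqlow
        exact lt_of_le_of_ne this (Ne.symm h0)
      rw [abs_div, abs_of_pos hq0, div_le_iff₀ hq0]
      calc |1 - Real.cos (x * ξ + y * η)| ≤ ((x : ℝ) ^ 2 + y ^ 2) * (ξ ^ 2 + η ^ 2) / 2 := hnum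
        _ = K * (m * (2 / Real.pi ^ 2) * (ξ ^ 2 + η ^ 2)) := by
            rw [hK]; field_simp; ring
        _ ≤ K * q := mul_le_mul_of_nonneg_left hqlow hK0

end Pool.Agent.Helper68.EXC.Sym

namespace Pool.Agent.Helper68.EXC

open Pool.Agent.Helper99.EXC

theorem SYM (hRHO : RHO_stmt) : SYM_stmt := by
  intro a ha ha1
  refine ⟨?_, fun x y => Sym.dbl hRHO ha ha1 x y⟩
  intro x y
  rw [Sym.dbl hRHO ha ha1 x y, Sym.dbl hRHO (show 0 < 1 - a by linarith) (show 1 - a < 1 by linarith) y x]
  congr 1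
  rw [intervalIntegral_intervalIntegral_swap (Sym.bdd ha ha1 x y)]
  congr 1
  ext η
  congr 1
  ext ξ
  congr 1
  · rw [add_comm]
  · ring

end Pool.Agent.Helper68.EXC
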